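import Mathlib

/-!
Prime factors of `F_p L_p` are `±1` modulo `p` (with the exception of `5 ∣ F_5`).
-/

namespace Pool.Agent.Lib.MP_5893d7_nt

/-- The Lucas numbers `2, 1, 3, 4, 7, 11, …`. -/
def lucas : ℕ → ℕ
  | 0 => 2
  | 1 => 1
  | n + 2 => lucas n + lucas (n + 1)

theorem lucas_eq : ∀ n : ℕ, lucas n + Nat.fib n = 2 * Nat.fib (n + 1)
  | 0 => by simp [lucas]
  | 1 => by simp [lucas]
  | n + 2 => by
    have h1 := lucas_eq n
    have h2 := lucas_eq (n + 1)
    have e1 : Nat.fib (n + 2) = Nat.fib n + Nat.fib (n + 1) := Nat.fib_add_two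
    have e2 : Nat.fib (n + 1 + 1) = Nat.fib n + Nat.fib (n + 1) := Nat.fib_add_two
    have e3 : Nat.fib (n + 2 + 1) = Nat.fib (n + 1) + Nat.fib (n + 2) := Nat.fib_add_two
    have e4 : lucas (n + 2) = lucas n + lucas (n + 1) := rfl
    rw [e2] at h2
    rw [e4, e3, e1]
    omega

theorem fib_mul_lucas (n : ℕ) : Nat.fib n * lucas n = Nat.fib (2 * n) := by
  have h := lucas_eq n
  rw [Nat.fib_two_mul]
  congr 1
  omega

theorem exists_rank (q : ℕ) (hq : q.Prime) (h5 : q ≠ 5) :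
    q ∣ Nat.fib (q - 1) ∨ q ∣ Nat.fib (q + 1) := by
  have : Fact q.Prime := ⟨hq⟩
  let F := AlgebraicClosure (ZMod q)
  have : CharP F q := inferInstance
  have : ExpChar F q := ExpChar.prime hq
  -- a root of `X² = X + 1`
  obtain ⟨φ, hφ⟩ : ∃ φ : F, φ ^ 2 = φ + 1 := by
    have hdeg : (Polynomial.X ^ 2 - Polynomial.X - 1 : Polynomial F).degree = 2 := by
      have : (Polynomial.X ^ 2 - Polynomial.X - 1 : Polynomial F)
          = Polynomial.C 1 * Polynomial.X ^ 2 + Polynomial.C (-1) * Polynomial.X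
            + Polynomial.C (-1) := by
        simp; ring
      rw [this]
      exact Polynomial.degree_quadratic one_ne_zero
    obtain ⟨φ, h⟩ := IsAlgClosed.exists_root (Polynomial.X ^ 2 - Polynomial.X - 1 : Polynomial F)
      (by rw [hdeg]; norm_num)
    refine ⟨φ, ?_⟩
    simp only [Polynomial.IsRoot.def, Polynomial.eval_sub, Polynomial.eval_pow,
      Polynomial.eval_X, Polynomial.eval_one] at h
    linear_combination h
  have h5F : (5 : F) ≠ 0 := by
    intro h
    have h' : ((5 : ℕ) : F) = 0 := by exact_mod_cast h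
    rw [CharP.cast_eq_zero_iff F q] at h'
    exact h5 ((Nat.prime_dvd_prime_iff_eq hq (by norm_num)).1 h')
  set ψ : F := 1 - φ with hψ
  have hd : φ - ψ ≠ 0 := by
    intro h
    apply h5F
    have e : (φ - ψ) ^ 2 = 5 := by
      rw [hψ]; linear_combination 4 * hφ
    rw [← e, h]; ring
  have hbinet : ∀ n : ℕ, φ ^ n - ψ ^ n = (φ - ψ) * (Nat.fib n : F) ∧
      φ ^ (n + 1) - ψ ^ (n + 1) = (φ - ψ) * (Nat.fib (n + 1) : F) := by
    intro n
    induction n with
    | zero => simp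
    | succ n ih =>
      refine ⟨ih.2, ?_⟩
      rw [show n + 1 + 1 = n + 2 by ring, Nat.fib_add_two]
      push_cast
      have hψ2 : ψ ^ 2 = ψ + 1 := by rw [hψ]; linear_combination hφ
      calc φ ^ (n + 2) - ψ ^ (n + 2) = φ ^ n * φ ^ 2 - ψ ^ n * ψ ^ 2 := by ring
        _ = (φ ^ n - ψ ^ n) + (φ ^ (n + 1) - ψ ^ (n + 1)) := by rw [hφ, hψ2]; ring
        _ = _ := by rw [ih.1, ih.2]; ring
  have hzero : ∀ n : ℕ, φ ^ n = ψ ^ n → q ∣ Nat.fib n := by
    intro n h
    have h1 := (hbinet n).1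
    rw [h, sub_self] at h1
    have h2 : (Nat.fib n : F) = 0 := by
      rcases mul_eq_zero.1 h1.symm with h3 | h3
      · exact absurd h3 hd
      · exact h3
    exact (CharP.cast_eq_zero_iff F q _).1 h2
  have hφ0 : φ ≠ 0 := by
    intro h; rw [h] at hφ; norm_num at hφ
  have hψ0 : ψ ≠ 0 := by
    intro h
    have : φ * ψ = -1 := by rw [hψ]; linear_combination -hφ
    rw [h, mul_zero] at this
    exact one_ne_zero (neg_eq_zero.1 this.symm)
  have hfr : (φ ^ q) ^ 2 = φ ^ q + 1 := by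
    rw [← pow_mul, mul_comm, pow_mul, hφ, add_pow_char]
    simp
  have hψq : ψ ^ q = 1 - φ ^ q := by
    rw [hψ, sub_pow_char]; simp
  have hroots : φ ^ q = φ ∨ φ ^ q = ψ := by
    have : (φ ^ q - φ) * (φ ^ q - ψ) = 0 := by
      rw [hψ]; linear_combination hfr - hφ
    rcases mul_eq_zero.1 this with h | h
    · left; exact sub_eq_zero.1 h
    · right; exact sub_eq_zero.1 h
  rcases hroots with h | h
  · left
    apply hzero
    have e1 : φ ^ (q - 1) * φ = φ := by rw [← pow_succ, Nat.sub_add_cancel hq.pos]; exact h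
    have e2 : ψ ^ (q - 1) * ψ = ψ := by
      rw [← pow_succ, Nat.sub_add_cancel hq.pos, hψq, h]
    have e1' : φ ^ (q - 1) = 1 := mul_right_cancel₀ hφ0 (by rw [e1, one_mul])
    have e2' : ψ ^ (q - 1) = 1 := mul_right_cancel₀ hψ0 (by rw [e2, one_mul])
    rw [e1', e2']
  · right
    apply hzero
    rw [pow_succ, pow_succ, hψq, h, hψ]
    ring

/-- A prime `q ≠ 5` dividing `F_p L_p`, `p` prime, is `±1` modulo `p`. -/
theorem dvd_of_dvd {p q : ℕ} (hp : p.Prime) (hq : q.Prime) (h5 : q ≠ 5)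
    (h : q ∣ Nat.fib p * lucas p) : p ∣ q - 1 ∨ p ∣ q + 1 := by
  rw [fib_mul_lucas] at h
  have key : ∀ m : ℕ, q ∣ Nat.fib m → p ∣ m := by
    intro m hm
    by_contra hpm
    have hco : Nat.Coprime p m := (Nat.Prime.coprime_iff_not_dvd hp).2 hpm
    have h1 : q ∣ Nat.fib (Nat.gcd (2 * p) m) := by
      rw [Nat.fib_gcd]; exact Nat.dvd_gcd h hm
    rw [Nat.Coprime.gcd_mul_right_cancel _ hco] at h1
    have h2 : Nat.gcd 2 m ∣ 2 := Nat.gcd_dvd_left _ _
    have h3 : Nat.fib (Nat.gcd 2 m) = 1 := by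
      rcases (Nat.dvd_prime Nat.prime_two).1 h2 with h4 | h4 <;> rw [h4] <;> rfl
    rw [h3] at h1
    exact hq.one_lt.ne' (Nat.dvd_one.1 h1)
  rcases exists_rank q hq h5 with h1 | h1
  · left; exact key _ h1
  · right; exact key _ h1

/-- `5` divides `F_p L_p` only for `p = 5`. -/
theorem five_dvd {p : ℕ} (hp : p.Prime) (h : 5 ∣ Nat.fib p * lucas p) : p = 5 := by
  rw [fib_mul_lucas] at h
  have h1 : 5 ∣ Nat.fib (Nat.gcd (2 * p) 5) := by
    rw [Nat.fib_gcd]; exact Nat.dvd_gcd h (by decide)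
  by_contra hne
  have hco : Nat.Coprime (2 * p) 5 := by
    apply Nat.Coprime.mul_left (by norm_num)
    exact (Nat.coprime_primes hp (by norm_num)).2 hne
  rw [hco] at h1
  revert h1; decide

end Pool.Agent.Lib.MP_5893d7_nt
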