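import Pool.Agent.Lib.MP_5893d7_nt.Sieve
import Pool.Agent.Lib.MP_5893d7_nt.Arith
import Pool.Agent.Lib.MP_60b32f_nt.Density

/-!
Counting the pairs `(p, q)` of primes with `p ≤ x`, `q ≤ K p`, `q ∣ F_p L_p`.
-/

namespace Pool.Agent.Lib.MP_5893d7_nt

open Finset Pool.Agent.Lib.MP_60b32f_nt

theorem sum_pc (k c x : ℕ) :
    ∑ p ∈ (Icc 1 x).filter Nat.Prime, (if (k * (p - 1) + c).Prime then 1 else 0) = pc k c x := by
  rw [sum_boole, Nat.cast_id, filter_filter]
  unfold pc
  apply Finset.card_bij (fun p _ => p - 1)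
  · intro p hp
    rw [mem_filter, mem_Icc] at hp
    rw [mem_filter, mem_range]
    have : p - 1 + 1 = p := by omega
    rw [this]
    exact ⟨by omega, hp.2⟩
  · intro a ha b hb h
    rw [mem_filter, mem_Icc] at ha hb
    omega
  · intro m hm
    rw [mem_filter, mem_range] at hm
    refine ⟨m + 1, ?_, by omega⟩
    rw [mem_filter, mem_Icc, Nat.add_sub_cancel]
    exact ⟨by omega, hm.2⟩

/-- For one prime `p`: the prime factors `q ≤ Kp` of `F_p L_p`. -/
theorem card_le_one (K : ℝ) (hK : 1 ≤ K) {p : ℕ} (hp : p.Prime) (M : ℕ) (hM : ⌊K⌋₊ + 1 ≤ M) :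
    ((Icc 1 ⌊K * p⌋₊).filter (fun q => q.Prime ∧ q ∣ Nat.fib p * lucas p)).card ≤
      (if p = 5 then 1 else 0)
      + (∑ k ∈ Icc 1 M, (if (k * (p - 1) + (k + 1)).Prime then 1 else 0)
      + ∑ k ∈ Icc 1 M, (if (k * (p - 1) + (k - 1)).Prime then 1 else 0)) := by
  have hp1 : 1 ≤ p := hp.pos
  have hsub : (Icc 1 ⌊K * p⌋₊).filter (fun q => q.Prime ∧ q ∣ Nat.fib p * lucas p) ⊆
      (if p = 5 then {5} else ∅) ∪
      (((Icc 1 M).filter (fun k => (k * (p - 1) + (k + 1)).Prime)).image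
        (fun k => k * (p - 1) + (k + 1)) ∪
      ((Icc 1 M).filter (fun k => (k * (p - 1) + (k - 1)).Prime)).image
        (fun k => k * (p - 1) + (k - 1))) := by
    intro q hq
    rw [mem_filter, mem_Icc] at hq
    obtain ⟨⟨_, hqK⟩, hq', hqd⟩ := hq
    have hqK' : (q : ℝ) ≤ K * p := by
      have h1 : (0 : ℝ) ≤ K * p := by positivity
      exact (Nat.le_floor_iff h1).1 hqK
    have hp0 : (0 : ℝ) < p := by exact_mod_cast hp.pos
    by_cases h5 : q = 5
    · have : p = 5 := five_dvd hp (h5 ▸ hqd)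
      rw [mem_union]; left
      rw [if_pos this, mem_singleton]; exact h5
    rw [mem_union]; right
    rw [mem_union]
    rcases dvd_of_dvd hp hq' h5 hqd with h | h
    · left
      obtain ⟨k, hk⟩ := h
      have hk1 : 1 ≤ k := by
        rcases Nat.eq_zero_or_pos k with h0 | h0
        · rw [h0, mul_zero] at hk
          have := hq'.two_le
          omega
        · exact h0
      have hqe : q = k * (p - 1) + (k + 1) := by
        have h1 : k * (p - 1) + k = k * p := by
          rw [← Nat.mul_succ]; congr 1; omega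
        have h2 : q = p * k + 1 := by have := hq'.two_le; omega
        rw [h2, mul_comm p k]; omega
      rw [mem_image]
      refine ⟨k, ?_, hqe.symm⟩
      rw [mem_filter, mem_Icc]
      refine ⟨⟨hk1, ?_⟩, hqe ▸ hq'⟩
      have h3 : (k : ℝ) ≤ K := by
        have h2 : q = p * k + 1 := by have := hq'.two_le; omega
        have h4 : (p : ℝ) * k + 1 ≤ K * p := by
          have : ((p * k + 1 : ℕ) : ℝ) ≤ K * p := h2 ▸ hqK'
          push_cast at this; exact this
        have h5 : (k : ℝ) * p ≤ K * p := by linarith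
        exact le_of_mul_le_mul_right h5 hp0
      have := Nat.le_floor h3
      omega
    · right
      obtain ⟨k, hk⟩ := h
      have hk1 : 1 ≤ k := by
        rcases Nat.eq_zero_or_pos k with h0 | h0
        · rw [h0, mul_zero] at hk
          omega
        · exact h0
      have h1 : k * (p - 1) + k = k * p := by
        rw [← Nat.mul_succ]; congr 1; omega
      have hqe : q = k * (p - 1) + (k - 1) := by
        have : p * k = k * p := mul_comm _ _
        omega
      rw [mem_image]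
      refine ⟨k, ?_, hqe.symm⟩
      rw [mem_filter, mem_Icc]
      refine ⟨⟨hk1, ?_⟩, hqe ▸ hq'⟩
      have h3 : ((k - 1 : ℕ) : ℝ) ≤ K := by
        have h6 : ((k - 1 : ℕ) : ℝ) * p ≤ K * p := by
          have h7 : (k - 1) * p ≤ q := by
            have : (k - 1) * p + p = k * p := by
              rw [← Nat.succ_mul]; congr 1; omega
            have h8 : p * k = k * p := mul_comm _ _
            omega
          have h9 : (((k - 1) * p : ℕ) : ℝ) ≤ q := by exact_mod_cast h7
          push_cast at h9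
          linarith
        exact le_of_mul_le_mul_right h6 hp0
      have := Nat.le_floor h3
      omega
  refine (card_le_card hsub).trans ((card_union_le _ _).trans ?_)
  refine Nat.add_le_add ?_ ((card_union_le _ _).trans (Nat.add_le_add ?_ ?_))
  · split_ifs <;> simp
  · refine card_image_le.trans (le_of_eq ?_)
    rw [sum_boole, Nat.cast_id]
  · refine card_image_le.trans (le_of_eq ?_)
    rw [sum_boole, Nat.cast_id]

/-- The total number of pairs, in terms of `pc`. -/
theorem total_le (K : ℝ) (hK : 1 ≤ K) (x M : ℕ) (hM : ⌊K⌋₊ + 1 ≤ M) :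
    ∑ p ∈ (Icc 1 x).filter Nat.Prime,
      ((Icc 1 ⌊K * p⌋₊).filter (fun q => q.Prime ∧ q ∣ Nat.fib p * lucas p)).card ≤
      1 + (∑ k ∈ Icc 1 M, pc k (k + 1) x + ∑ k ∈ Icc 1 M, pc k (k - 1) x) := by
  have h1 : ∑ p ∈ (Icc 1 x).filter Nat.Prime,
      ((Icc 1 ⌊K * p⌋₊).filter (fun q => q.Prime ∧ q ∣ Nat.fib p * lucas p)).card ≤
      ∑ p ∈ (Icc 1 x).filter Nat.Prime, ((if p = 5 then 1 else 0)
      + (∑ k ∈ Icc 1 M, (if (k * (p - 1) + (k + 1)).Prime then 1 else 0)
      + ∑ k ∈ Icc 1 M, (if (k * (p - 1) + (k - 1)).Prime then 1 else 0))) := by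
    apply sum_le_sum
    intro p hp
    exact card_le_one K hK (mem_filter.1 hp).2 M hM
  refine h1.trans ?_
  rw [sum_add_distrib, sum_add_distrib]
  refine Nat.add_le_add ?_ (le_of_eq ?_)
  · rw [sum_ite_eq']
    split_ifs <;> simp
  · congr 1
    · rw [sum_comm]
      exact sum_congr rfl fun k _ => sum_pc k (k + 1) x
    · rw [sum_comm]
      exact sum_congr rfl fun k _ => sum_pc k (k - 1) x

theorem pi_lower (x : ℕ) (hx : 2 ≤ x) :
    (x : ℝ) / Real.log x ≤ 200 * (Nat.primeCounting x : ℝ) := by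
  have hx' : (2 : ℝ) ≤ x := by exact_mod_cast hx
  have hlog : 0 < Real.log x := Real.log_pos (by linarith)
  by_cases h : 112 ≤ x
  · have h1 := primeCounting_ge x h
    have h2 : (x : ℝ) / 2 / Real.log x = (x : ℝ) / Real.log x / 2 := by ring
    rw [h2] at h1
    have h3 : (0 : ℝ) ≤ x / Real.log x := by positivity
    linarith
  · have hx2 : (x : ℝ) ≤ 112 := by exact_mod_cast (by omega : x ≤ 112)
    have h1 : Real.log 2 ≤ Real.log x := Real.log_le_log (by norm_num) hx'
    have h2 := Real.log_two_gt_d9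
    have h3 : (x : ℝ) / Real.log x ≤ 200 := by
      rw [div_le_iff₀ hlog]
      nlinarith
    have h4 : (1 : ℝ) ≤ Nat.primeCounting x := by
      have : 1 ≤ Nat.primeCounting x := by
        have h5 := Nat.monotone_primeCounting hx
        have h6 : Nat.primeCounting 2 = 1 := by decide
        omega
      exact_mod_cast this
    linarith

theorem one_le_ratio (x : ℕ) (hx : 2 ≤ x) :
    (1 : ℝ) ≤ 3200 * (Nat.primeCounting x : ℝ) / Real.log x := by
  have hx' : (2 : ℝ) ≤ x := by exact_mod_cast hx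
  have hlog : 0 < Real.log x := Real.log_pos (by linarith)
  have h1 := pi_lower x hx
  have h2 := log_sq_le x (by linarith)
  have h3 : Real.sqrt x ≤ x := by
    rw [Real.sqrt_le_left (by linarith)]
    nlinarith
  rw [le_div_iff₀ hlog, one_mul]
  rw [div_le_iff₀ hlog] at h1
  have h4 : (Real.log x) ^ 2 ≤ 16 * x := by linarith
  nlinarith

/-- Main count. -/
theorem main_count : ∃ C : ℝ, 0 < C ∧ ∀ x : ℕ, 2 ≤ x → ∀ K : ℝ, 1 ≤ K →
    ((∑ p ∈ (Icc 1 x).filter Nat.Prime,
      ((Icc 1 ⌊K * p⌋₊).filter (fun q => q.Prime ∧ q ∣ Nat.fib p * lucas p)).card : ℕ) : ℝ)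
      ≤ C * K * (Nat.primeCounting x : ℝ) / Real.log x := by
  obtain ⟨C4, hC4, h4⟩ := fourth_moment
  refine ⟨3200 + 2 * (2 * 18496 * C4 * 200), by positivity, fun x hx K hK => ?_⟩
  have hx' : (2 : ℝ) ≤ x := by exact_mod_cast hx
  have hlog : 0 < Real.log x := Real.log_pos (by linarith)
  set M : ℕ := ⌊K⌋₊ + 1 with hM
  have hM2 : (M : ℝ) ≤ 2 * K := by
    rw [hM]; push_cast
    have := Nat.floor_le (show 0 ≤ K by linarith)
    linarith
  have h0 := total_le K hK x M le_rfl
  have hpc : ∀ c : ℕ → ℕ, (∀ k, 1 ≤ k → (c k = k + 1 ∨ c k + 1 = k)) →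
      ((∑ k ∈ Icc 1 M, pc k (c k) x : ℕ) : ℝ) ≤
        2 * 18496 * C4 * K * (x / (Real.log x) ^ 2) := by
    intro c hc
    push_cast
    calc ∑ k ∈ Icc 1 M, (pc k (c k) x : ℝ)
        ≤ ∑ k ∈ Icc 1 M, 18496 * (x / (Real.log x) ^ 2) * (sdiv k) ^ 4 := by
          apply sum_le_sum
          intro k hk
          rw [mem_Icc] at hk
          have h1 := pc_bound (hc k hk.1) hk.1 hx
          have hs := sdiv_pos k hk.1
          have h2 : (sdiv k) ^ 2 ≤ (sdiv k) ^ 4 := pow_le_pow_right₀ hs (by norm_num)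
          calc (pc k (c k) x : ℝ) ≤ 18496 * (sdiv k) ^ 2 * x / (Real.log x) ^ 2 := h1
            _ = 18496 * (x / (Real.log x) ^ 2) * (sdiv k) ^ 2 := by ring
            _ ≤ 18496 * (x / (Real.log x) ^ 2) * (sdiv k) ^ 4 := by gcongr
      _ = 18496 * (x / (Real.log x) ^ 2) * ∑ k ∈ Icc 1 M, (sdiv k) ^ 4 := by rw [mul_sum]
      _ ≤ 18496 * (x / (Real.log x) ^ 2) * (C4 * M) := by
          have := h4 M
          gcongr
      _ ≤ 18496 * (x / (Real.log x) ^ 2) * (C4 * (2 * K)) := by gcongr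
      _ = 2 * 18496 * C4 * K * (x / (Real.log x) ^ 2) := by ring
  have h1 := hpc (fun k => k + 1) (fun k _ => Or.inl rfl)
  have h2 := hpc (fun k => k - 1) (fun k hk => Or.inr (by show k - 1 + 1 = k; omega))
  have h3 : (x : ℝ) / (Real.log x) ^ 2 ≤ 200 * ((Nat.primeCounting x : ℝ) / Real.log x) := by
    have h5 := pi_lower x hx
    calc (x : ℝ) / (Real.log x) ^ 2 = (x / Real.log x) / Real.log x := by
          field_simp
      _ ≤ (200 * (Nat.primeCounting x : ℝ)) / Real.log x := by gcongr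
      _ = _ := by ring
  have h5 := one_le_ratio x hx
  have h6 : (1 : ℝ) ≤ 3200 * K * ((Nat.primeCounting x : ℝ) / Real.log x) := by
    have h7 : (0 : ℝ) ≤ (Nat.primeCounting x : ℝ) / Real.log x := by positivity
    calc (1 : ℝ) ≤ 3200 * (Nat.primeCounting x : ℝ) / Real.log x := h5
      _ = 3200 * 1 * ((Nat.primeCounting x : ℝ) / Real.log x) := by ring
      _ ≤ _ := by gcongr
  have h8 : ((∑ p ∈ (Icc 1 x).filter Nat.Prime,
      ((Icc 1 ⌊K * p⌋₊).filter (fun q => q.Prime ∧ q ∣ Nat.fib p * lucas p)).card : ℕ) : ℝ)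
      ≤ ((1 + (∑ k ∈ Icc 1 M, pc k (k + 1) x + ∑ k ∈ Icc 1 M, pc k (k - 1) x) : ℕ) : ℝ) := by
    exact_mod_cast h0
  refine h8.trans ?_
  rw [Nat.cast_add, Nat.cast_add, Nat.cast_one]
  set R : ℝ := (Nat.primeCounting x : ℝ) / Real.log x with hR
  have h9 : 2 * 18496 * C4 * K * (x / (Real.log x) ^ 2) ≤ 2 * 18496 * C4 * K * (200 * R) := by
    gcongr
  have h10 : (3200 + 2 * (2 * 18496 * C4 * 200)) * K * (Nat.primeCounting x : ℝ) / Real.log x
      = 3200 * K * R + 2 * (2 * 18496 * C4 * K * (200 * R)) := by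
    rw [hR]; ring
  rw [h10]
  linarith

end Pool.Agent.Lib.MP_5893d7_nt
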