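import Pool.Agent.Lib.MP_60b32f_nt.Moments

/-!
Selberg sieve for the pairs `(m + 1, k m + c)` with `|c - k| = 1`, uniformly in `k`.
-/

namespace Pool.Agent.Lib.MP_5893d7_nt

open Finset BoundingSieve Pool.Agent.Lib.MP_60b32f_nt

/-- The sieve problem: the values `(m+1)(km+c)`, `m < x`. -/
noncomputable def ts (k c x z : ℕ) : BoundingSieve where
  support := (range x).image (fun m => (m + 1) * (k * m + c))
  prodPrimes := bigP k z
  prodPrimes_squarefree := bigP_squarefree k z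
  weights := fun v => (((range x).filter (fun m => (m + 1) * (k * m + c) = v)).card : ℝ)
  weights_nonneg := fun v => by positivity
  totalMass := x
  nu := tauDiv
  nu_mult := tauDiv_mult
  nu_pos_of_prime := (gs k z).nu_pos_of_prime
  nu_lt_one_of_prime := (gs k z).nu_lt_one_of_prime

theorem lev_ts (k c x z : ℕ) : lev (ts k c x z) z = lev (gs k z) z := rfl

theorem bigJ_ts (k c x z : ℕ) : bigJ (ts k c x z) z = bigJ (gs k z) z := rfl

theorem ts_multSum (k c x z d : ℕ) : (ts k c x z).multSum d =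
    (((range x).filter (fun m => d ∣ (m + 1) * (k * m + c))).card : ℝ) :=
  fib_sum (range x) (fun m => (m + 1) * (k * m + c)) (fun v => d ∣ v)

theorem ts_siftedSum (k c x z : ℕ) : (ts k c x z).siftedSum =
    (((range x).filter (fun m => Nat.Coprime (bigP k z) ((m + 1) * (k * m + c)))).card : ℝ) :=
  fib_sum (range x) (fun m => (m + 1) * (k * m + c)) (fun v => Nat.Coprime (bigP k z) v)

theorem coprime_forms {k c : ℕ} (hc : c = k + 1 ∨ c + 1 = k) (m : ℕ) :
    Nat.Coprime (m + 1) (k * m + c) := by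
  rw [Nat.coprime_iff_gcd_eq_one]
  set g := Nat.gcd (m + 1) (k * m + c) with hg
  have h1 : g ∣ m + 1 := Nat.gcd_dvd_left _ _
  have h2 : g ∣ k * m + c := Nat.gcd_dvd_right _ _
  have h3 : g ∣ k * (m + 1) := h1.mul_left _
  have e : k * (m + 1) = k * m + k := by ring
  rcases hc with hc | hc
  · have h4 : k * m + c = k * (m + 1) + 1 := by rw [hc]; ring
    rw [h4] at h2
    exact Nat.dvd_one.1 ((Nat.dvd_add_right h3).1 h2)
  · have h4 : k * (m + 1) = (k * m + c) + 1 := by rw [← hc]; ring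
    rw [h4] at h3
    exact Nat.dvd_one.1 ((Nat.dvd_add_right h2).1 h3)

theorem fiber_eq' {k c : ℕ} (hc : c = k + 1 ∨ c + 1 = k) {d : ℕ} (hd0 : 0 < d) {d1 : ℕ}
    (hd1 : d1 ∣ d) (m : ℕ) :
    (d ∣ (m + 1) * (k * m + c) ∧ Nat.gcd d (m + 1) = d1) ↔ (d1 ∣ m + 1 ∧ d / d1 ∣ k * m + c) := by
  obtain ⟨d2, rfl⟩ := hd1
  have hd10 : 0 < d1 := Nat.pos_of_mul_pos_right hd0
  rw [Nat.mul_div_cancel_left _ hd10]
  have hco := coprime_forms hc m
  constructor
  · rintro ⟨h1, h2⟩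
    have h3 : d1 ∣ m + 1 := by rw [← h2]; exact Nat.gcd_dvd_right _ _
    refine ⟨h3, ?_⟩
    obtain ⟨m', hm'⟩ := h3
    rw [hm'] at h1 h2
    have h4 : Nat.gcd d2 m' = 1 := by
      rw [Nat.gcd_mul_left] at h2
      exact Nat.eq_of_mul_eq_mul_left hd10 (by rw [h2, mul_one])
    have h5 : d2 ∣ m' * (k * m + c) := by
      have : d1 * d2 ∣ d1 * (m' * (k * m + c)) := by rw [← mul_assoc]; exact h1
      exact (Nat.mul_dvd_mul_iff_left hd10).1 this
    exact Nat.Coprime.dvd_of_dvd_mul_left h4 h5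
  · rintro ⟨h1, h2⟩
    refine ⟨Nat.mul_dvd_mul h1 h2, ?_⟩
    have h3 : Nat.Coprime d2 (m + 1) := (hco.symm).coprime_dvd_left h2
    rw [Nat.Coprime.gcd_mul_right_cancel _ h3]
    exact Nat.gcd_eq_left h1

theorem count_pair' (k c x d1 d2 : ℕ) (hco : Nat.Coprime d1 d2) (h1 : 0 < d1) (h2 : 0 < d2)
    (hk : Nat.Coprime d2 k) :
    |(((range x).filter (fun m => d1 ∣ m + 1 ∧ d2 ∣ k * m + c)).card : ℝ)
      - (x : ℝ) / (d1 * d2 : ℕ)| ≤ 1 := by
  -- a residue class for `m + 1 ≡ 0 (mod d1)`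
  have ha : ∃ a, ∀ m, d1 ∣ m + 1 ↔ m ≡ a [MOD d1] := by
    refine ⟨d1 - 1, fun m => ?_⟩
    rw [← Nat.modEq_zero_iff_dvd]
    have e : d1 - 1 + 1 ≡ 0 [MOD d1] := by
      rw [Nat.sub_add_cancel h1]
      exact (Nat.modEq_zero_iff_dvd).2 dvd_rfl
    constructor
    · intro h
      exact Nat.ModEq.add_right_cancel' 1 (h.trans e.symm)
    · intro h
      exact (h.add_right 1).trans e
  have hb : ∃ b, ∀ m, d2 ∣ k * m + c ↔ m ≡ b [MOD d2] := by
    -- choose `b` with `k b + c ≡ 0`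
    have hex : ∃ b, d2 ∣ k * b + c := by
      have hu : IsUnit ((k : ℕ) : ZMod d2) := (ZMod.isUnit_iff_coprime k d2).2 hk.symm
      have : NeZero d2 := ⟨h2.ne'⟩
      obtain ⟨u, hu⟩ := hu
      refine ⟨(-(↑u⁻¹ : ZMod d2) * (c : ZMod d2)).val, ?_⟩
      rw [← ZMod.natCast_eq_zero_iff]
      push_cast
      rw [ZMod.natCast_zmod_val, ← hu]
      have : (u : ZMod d2) * (-(↑u⁻¹ : ZMod d2) * (c : ZMod d2)) = -(c : ZMod d2) := by
        rw [← mul_assoc, mul_neg, Units.mul_inv]; ring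
      rw [this]; ring
    obtain ⟨b, hb⟩ := hex
    refine ⟨b, fun m => ?_⟩
    constructor
    · intro h
      have h3 : k * m + c ≡ k * b + c [MOD d2] :=
        ((Nat.modEq_zero_iff_dvd).2 h).trans ((Nat.modEq_zero_iff_dvd).2 hb).symm
      have h4 : k * m ≡ k * b [MOD d2] := Nat.ModEq.add_right_cancel' c h3
      exact Nat.ModEq.cancel_left_of_coprime hk h4
    · intro h
      have h3 : k * m + c ≡ k * b + c [MOD d2] := (h.mul_left k).add_right c
      exact (Nat.modEq_zero_iff_dvd).1 (h3.trans ((Nat.modEq_zero_iff_dvd).2 hb))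
  obtain ⟨a, ha⟩ := ha
  obtain ⟨b, hb⟩ := hb
  obtain ⟨t, ht1, ht2⟩ := Nat.chineseRemainder hco a b
  have h3 : (range x).filter (fun m => d1 ∣ m + 1 ∧ d2 ∣ k * m + c)
      = (range x).filter (fun m => m ≡ t [MOD (d1 * d2)]) := by
    apply filter_congr
    intro m _
    rw [← Nat.modEq_and_modEq_iff_modEq_mul hco, ha m, hb m]
    constructor
    · rintro ⟨h, h'⟩; exact ⟨h.trans ht1.symm, h'.trans ht2.symm⟩
    · rintro ⟨h, h'⟩; exact ⟨h.trans ht1, h'.trans ht2⟩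
  rw [h3]
  exact count_class x (d1 * d2) t (Nat.mul_pos h1 h2)

theorem rem_bound' {k c x z d : ℕ} (hc : c = k + 1 ∨ c + 1 = k) (hd : d ∣ bigP k z) :
    |(ts k c x z).rem d| ≤ (d.divisors.card : ℝ) := by
  have hsq : Squarefree d := (bigP_squarefree k z).squarefree_of_dvd hd
  have hd0 : 0 < d := Nat.pos_of_ne_zero hsq.ne_zero
  have hdk : Nat.Coprime d k := (coprime_bigP k z).coprime_dvd_left hd
  have h1 : ((range x).filter (fun m => d ∣ (m + 1) * (k * m + c))).card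
      = ∑ d1 ∈ d.divisors,
        ((range x).filter (fun m => d1 ∣ m + 1 ∧ d / d1 ∣ k * m + c)).card := by
    rw [card_eq_sum_card_fiberwise (f := fun m => Nat.gcd d (m + 1)) (t := d.divisors)]
    · refine sum_congr rfl fun d1 hd1 => ?_
      rw [filter_filter]
      congr 1
      apply filter_congr
      intro m _
      exact fiber_eq' hc hd0 (Nat.dvd_of_mem_divisors hd1) m
    · intro m _
      rw [mem_coe, Nat.mem_divisors]
      exact ⟨Nat.gcd_dvd_left _ _, hd0.ne'⟩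
  have h2 : (ts k c x z).rem d = ∑ d1 ∈ d.divisors,
      ((((range x).filter (fun m => d1 ∣ m + 1 ∧ d / d1 ∣ k * m + c)).card : ℝ)
        - (x : ℝ) / d) := by
    unfold BoundingSieve.rem
    rw [ts_multSum, h1, sum_sub_distrib, sum_const, nsmul_eq_mul]
    push_cast
    have : (ts k c x z).nu d * (ts k c x z).totalMass
        = (d.divisors.card : ℝ) * ((x : ℝ) / d) := by
      change tauDiv d * (x : ℝ) = _
      rw [tauDiv_apply]
      ring
    rw [this]
  rw [h2]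
  refine (abs_sum_le_sum_abs _ _).trans ?_
  calc ∑ d1 ∈ d.divisors,
      |(((range x).filter (fun m => d1 ∣ m + 1 ∧ d / d1 ∣ k * m + c)).card : ℝ) - (x : ℝ) / d|
      ≤ ∑ d1 ∈ d.divisors, (1 : ℝ) := by
        apply sum_le_sum
        intro d1 hd1
        obtain ⟨d2, hd2⟩ := Nat.dvd_of_mem_divisors hd1
        have hd10 : 0 < d1 := Nat.pos_of_mem_divisors hd1
        have hd20 : 0 < d2 := by
          rcases Nat.eq_zero_or_pos d2 with h | h
          · rw [h, mul_zero] at hd2; omega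
          · exact h
        have h3 : d / d1 = d2 := by rw [hd2, Nat.mul_div_cancel_left _ hd10]
        have hco : Nat.Coprime d1 d2 := Nat.coprime_of_squarefree_mul (hd2 ▸ hsq)
        have hd2k : Nat.Coprime d2 k := hdk.coprime_dvd_left (hd2 ▸ Nat.dvd_mul_left _ _)
        have := count_pair' k c x d1 d2 hco hd10 hd20 hd2k
        rw [h3]
        rw [← hd2] at this
        exact this
    _ = (d.divisors.card : ℝ) := by simp

/-- Number of `m < x` with `m + 1` and `k m + c` both prime. -/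
def pc (k c x : ℕ) : ℕ := ((range x).filter (fun m => (m + 1).Prime ∧ (k * m + c).Prime)).card

theorem pc_le_sifted (k c x z : ℕ) (hk : 1 ≤ k) :
    (pc k c x : ℝ) ≤ (ts k c x z).siftedSum + (2 * z + 1) := by
  rw [ts_siftedSum]
  unfold pc
  have hsub : (range x).filter (fun m => (m + 1).Prime ∧ (k * m + c).Prime) ⊆
      (range x).filter (fun m => Nat.Coprime (bigP k z) ((m + 1) * (k * m + c))) ∪
        (range z ∪ range (z + 1)) := by
    intro m hm
    rw [mem_filter, mem_range] at hm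
    obtain ⟨hmn, hm1, hm2⟩ := hm
    rw [mem_union, mem_union]
    by_cases h1 : m + 1 ≤ z
    · right; left
      rw [mem_range]; omega
    by_cases h2 : k * m + c ≤ z
    · right; right
      rw [mem_range]
      have : m ≤ k * m := Nat.le_mul_of_pos_left m hk
      omega
    left
    rw [mem_filter, mem_range]
    refine ⟨hmn, ?_⟩
    rw [Nat.coprime_iff_gcd_eq_one]
    by_contra h
    obtain ⟨p, hp, hpd⟩ := Nat.exists_prime_and_dvd h
    have hp1 := (prime_dvd_bigP hp).1 (hpd.trans (Nat.gcd_dvd_left _ _))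
    have hp2 : p ≤ z := (mem_Icc.1 (mem_filter.1 hp1).1).2
    rcases hp.dvd_mul.1 (hpd.trans (Nat.gcd_dvd_right _ _)) with h3 | h3
    · have := (Nat.prime_dvd_prime_iff_eq hp hm1).1 h3
      omega
    · have := (Nat.prime_dvd_prime_iff_eq hp hm2).1 h3
      omega
  have h1 := card_le_card hsub
  have h2 : ((range x).filter (fun m => Nat.Coprime (bigP k z) ((m + 1) * (k * m + c))) ∪
        (range z ∪ range (z + 1))).card ≤
      ((range x).filter (fun m => Nat.Coprime (bigP k z) ((m + 1) * (k * m + c)))).card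
        + (z + (z + 1)) := by
    refine (card_union_le _ _).trans ?_
    gcongr
    refine (card_union_le _ _).trans ?_
    simp
  have h3 := h1.trans h2
  have h4 : (((range x).filter (fun m => (m + 1).Prime ∧ (k * m + c).Prime)).card : ℝ) ≤
      (((range x).filter (fun m => Nat.Coprime (bigP k z) ((m + 1) * (k * m + c)))).card
        + (z + (z + 1)) : ℕ) := by
    exact_mod_cast h3
  push_cast at h4
  linarith

theorem err_le' {k c x z : ℕ} (hc : c = k + 1 ∨ c + 1 = k) :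
    ∑ d1 ∈ lev (ts k c x z) z, ∑ d2 ∈ lev (ts k c x z) z,
      ((ts k c x z).nu d1)⁻¹ * ((ts k c x z).nu d2)⁻¹ * |(ts k c x z).rem (d1.lcm d2)|
        ≤ (z : ℝ) ^ 6 := by
  rw [lev_ts]
  have hnu : ∀ d, (ts k c x z).nu d = (gs k z).nu d := fun _ => rfl
  have hterm : ∀ d1 ∈ lev (gs k z) z, ∀ d2 ∈ lev (gs k z) z,
      ((ts k c x z).nu d1)⁻¹ * ((ts k c x z).nu d2)⁻¹ * |(ts k c x z).rem (d1.lcm d2)|
        ≤ (z : ℝ) ^ 4 := by
    intro d1 h1 d2 h2
    rw [hnu, hnu]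
    have ha := inv_nu_le h1
    have hb := inv_nu_le h2
    have hlcm : d1.lcm d2 ∣ bigP k z := Nat.lcm_dvd (mem_lev.1 h1).1 (mem_lev.1 h2).1
    have hr := rem_bound' (x := x) hc hlcm
    have hcc : (((d1.lcm d2).divisors.card : ℕ) : ℝ) ≤ (z : ℝ) * z := by
      have h3 : (d1.lcm d2).divisors.card ≤ d1.lcm d2 := Nat.card_divisors_le_self _
      have h4 : d1.lcm d2 ≤ d1 * d2 := Nat.le_of_dvd (Nat.mul_pos (lev_pos h1) (lev_pos h2))
        (Nat.lcm_dvd_mul _ _)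
      have h5 : d1 * d2 ≤ z * z := Nat.mul_le_mul (mem_lev.1 h1).2 (mem_lev.1 h2).2
      exact_mod_cast (h3.trans h4).trans h5
    have hn1 : 0 ≤ ((gs k z).nu d1)⁻¹ :=
      (inv_pos.2 (nu_pos_of_dvd_prodPrimes (mem_lev.1 h1).1)).le
    have hn2 : 0 ≤ ((gs k z).nu d2)⁻¹ :=
      (inv_pos.2 (nu_pos_of_dvd_prodPrimes (mem_lev.1 h2).1)).le
    calc ((gs k z).nu d1)⁻¹ * ((gs k z).nu d2)⁻¹ * |(ts k c x z).rem (d1.lcm d2)|
        ≤ (z : ℝ) * z * ((z : ℝ) * z) := by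
          gcongr
          exact hr.trans hcc
      _ = (z : ℝ) ^ 4 := by ring
  calc ∑ d1 ∈ lev (gs k z) z, ∑ d2 ∈ lev (gs k z) z,
      ((ts k c x z).nu d1)⁻¹ * ((ts k c x z).nu d2)⁻¹ * |(ts k c x z).rem (d1.lcm d2)|
      ≤ ∑ d1 ∈ lev (gs k z) z, ∑ d2 ∈ lev (gs k z) z, (z : ℝ) ^ 4 :=
        sum_le_sum fun d1 h1 => sum_le_sum fun d2 h2 => hterm d1 h1 d2 h2
    _ = ((lev (gs k z) z).card : ℝ) * (((lev (gs k z) z).card : ℝ) * (z : ℝ) ^ 4) := by
        simp [sum_const, nsmul_eq_mul]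
    _ ≤ (z : ℝ) * ((z : ℝ) * (z : ℝ) ^ 4) := by
        have : ((lev (gs k z) z).card : ℝ) ≤ z := by exact_mod_cast lev_card k z
        gcongr
    _ = (z : ℝ) ^ 6 := by ring

theorem pc_le {k c x z : ℕ} (hc : c = k + 1 ∨ c + 1 = k) (hk : 1 ≤ k) (hz : 1 ≤ z) :
    (pc k c x : ℝ) ≤ x * (bigJ (gs k z) z)⁻¹ + (z : ℝ) ^ 6 + (2 * z + 1) := by
  have h1 := pc_le_sifted k c x z hk
  have h2 := selberg_bound (ts k c x z) z hz
  have h3 := err_le' (x := x) (z := z) hc
  have h4 : (ts k c x z).totalMass = (x : ℝ) := rfl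
  rw [h4, bigJ_ts] at h2
  linarith

theorem pc_bound_w {k c x w : ℕ} (hc : c = k + 1 ∨ c + 1 = k) (hk : 1 ≤ k) (hw : 1 ≤ w) :
    (pc k c x : ℝ) ≤ 32 * (sdiv k) ^ 2 * x / (Real.log (w + 1)) ^ 2 + (w : ℝ) ^ 12
      + (2 * (w : ℝ) ^ 2 + 1) := by
  have h1 := pc_le (x := x) (z := w * w) hc hk (Nat.mul_pos hw hw)
  have h2 := bigJ_lower k w hk
  have hw' : (1 : ℝ) ≤ w := by exact_mod_cast hw
  have hlog : 0 < Real.log (w + 1) := Real.log_pos (by linarith)
  have hJ : 0 < bigJ (gs k (w * w)) (w * w) := bigJ_pos (Nat.mul_pos hw hw)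
  have hs := sdiv_pos k hk
  generalize bigJ (gs k (w * w)) (w * w) = J at *
  have h3 : (x : ℝ) * J⁻¹ ≤ 32 * (sdiv k) ^ 2 * x / (Real.log (w + 1)) ^ 2 := by
    rw [le_div_iff₀ (by positivity)]
    calc (x : ℝ) * J⁻¹ * (Real.log (w + 1)) ^ 2 ≤ (x : ℝ) * J⁻¹ * (32 * (sdiv k) ^ 2 * J) := by
          gcongr
      _ = 32 * (sdiv k) ^ 2 * x := by field_simp
  push_cast at h1
  have h4 : ((w : ℝ) * w) ^ 6 = (w : ℝ) ^ 12 := by ring
  rw [h4] at h1
  have h5 : 2 * ((w : ℝ) * w) = 2 * (w : ℝ) ^ 2 := by ring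
  rw [h5] at h1
  linarith

/-- Upper bound for the number of primes `n ≤ x` with `kn ± 1` prime, uniform in `k`. -/
theorem pc_bound {k c x : ℕ} (hc : c = k + 1 ∨ c + 1 = k) (hk : 1 ≤ k) (hx : 2 ≤ x) :
    (pc k c x : ℝ) ≤ 18496 * (sdiv k) ^ 2 * x / (Real.log x) ^ 2 := by
  have hx' : (2 : ℝ) ≤ x := by exact_mod_cast hx
  have hxpos : (0 : ℝ) < x := by linarith
  set y : ℝ := (x : ℝ) ^ (1 / 24 : ℝ) with hy
  have hy1 : 1 ≤ y := Real.one_le_rpow (by linarith) (by norm_num)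
  have hy24 : y ^ 24 = x := by
    rw [hy, ← Real.rpow_natCast, ← Real.rpow_mul hxpos.le]
    norm_num
  set w : ℕ := ⌊y⌋₊ with hw
  have hw1 : 1 ≤ w := by
    rw [hw, Nat.one_le_floor_iff]
    exact hy1
  have hwy : (w : ℝ) ≤ y := Nat.floor_le (by linarith)
  have hyw : y < w + 1 := Nat.lt_floor_add_one y
  have h1 := pc_bound_w (x := x) hc hk hw1
  have hlogx : 0 < Real.log x := Real.log_pos (by linarith)
  have hlogy : Real.log y = (1 / 24) * Real.log x := by rw [hy, Real.log_rpow hxpos]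
  have hlogw : (1 / 24) * Real.log x ≤ Real.log (w + 1) := by
    rw [← hlogy]
    exact Real.log_le_log (by linarith) hyw.le
  have hs := sdiv_pos k hk
  have h2 : 32 * (sdiv k) ^ 2 * x / (Real.log (w + 1)) ^ 2 ≤
      32 * (sdiv k) ^ 2 * x / ((1 / 24) * Real.log x) ^ 2 := by
    gcongr
  have h3 : 32 * (sdiv k) ^ 2 * x / ((1 / 24) * Real.log x) ^ 2 =
      18432 * (sdiv k) ^ 2 * x / (Real.log x) ^ 2 := by
    field_simp
    norm_num
  have hsq : Real.sqrt x = y ^ 12 := by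
    rw [← hy24]
    rw [show y ^ 24 = (y ^ 12) ^ 2 by ring]
    exact Real.sqrt_sq (by positivity)
  have h4 : (w : ℝ) ^ 12 ≤ Real.sqrt x := by
    rw [hsq]; gcongr
  have h5 : 2 * (w : ℝ) ^ 2 ≤ 2 * Real.sqrt x := by
    rw [hsq]
    have : (w : ℝ) ^ 2 ≤ y ^ 12 := by
      calc (w : ℝ) ^ 2 ≤ y ^ 2 := by gcongr
        _ ≤ y ^ 12 := pow_le_pow_right₀ hy1 (by norm_num)
    linarith
  have h55 : (1 : ℝ) ≤ Real.sqrt x := by
    rw [hsq]; exact one_le_pow₀ hy1
  have h6 := log_sq_le x (by linarith)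
  have h7 : 4 * Real.sqrt x ≤ 64 * (sdiv k) ^ 2 * x / (Real.log x) ^ 2 := by
    rw [le_div_iff₀ (by positivity)]
    have hs2 : 1 ≤ (sdiv k) ^ 2 := one_le_pow₀ hs
    calc 4 * Real.sqrt x * (Real.log x) ^ 2 ≤ 4 * Real.sqrt x * (16 * Real.sqrt x) := by gcongr
      _ = 64 * 1 * (Real.sqrt x * Real.sqrt x) := by ring
      _ = 64 * 1 * x := by rw [Real.mul_self_sqrt hxpos.le]
      _ ≤ 64 * (sdiv k) ^ 2 * x := by gcongr
  have h8 : 18496 * (sdiv k) ^ 2 * x / (Real.log x) ^ 2 =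
      18432 * (sdiv k) ^ 2 * x / (Real.log x) ^ 2 + 64 * (sdiv k) ^ 2 * x / (Real.log x) ^ 2 := by
    ring
  rw [h8]
  rw [h3] at h2
  linarith

end Pool.Agent.Lib.MP_5893d7_nt
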